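import Mathlib
import Pool.Agent.H669R3.SMChain

/-!
MP_9fe7bd_lc, Q1. A contracting self-similar group on which the domino problem is decidable on
every Schreier graph, while Schreier graphs with arbitrarily complicated (in particular
undecidable) monadic second-order theories exist.
-/

namespace Pool.Agent.Results.MP_9fe7bd_lc.DominoVersusMSO

open SchreierMSO

/-- There are six tree automorphisms of the tree of words over a four letter alphabet which
generate a contracting self-similar group (moreover bounded, level-transitive and
self-replicating) such that the domino problem is decidable on every Schreier graph, but for every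
set `A` of natural numbers there is a Schreier graph such that `A` is many-one reducible to its
monadic second-order theory; in particular some Schreier graph has an undecidable monadic
second-order theory. -/
theorem result : ∃ s : Fin 6 → Equiv.Perm (List (Fin 4)),
    SelfSimilar (Subgroup.closure (Set.range s)) ∧
    Contracting (Subgroup.closure (Set.range s)) ∧
    BoundedAct (Subgroup.closure (Set.range s)) ∧
    LevelTransitive (Subgroup.closure (Set.range s)) ∧
    SelfReplicating (Subgroup.closure (Set.range s)) ∧
    (∀ ξ : ℕ → Fin 4, DominoDecidable (schreier (Subgroup.closure (Set.range s)) s ξ)) ∧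
    (∀ A : ℕ → Prop, ∃ ξ : ℕ → Fin 4,
      A ≤₀ MSOTheory (schreier (Subgroup.closure (Set.range s)) s ξ)) ∧
    (∃ ξ : ℕ → Fin 4,
      ¬ ComputablePred (MSOTheory (schreier (Subgroup.closure (Set.range s)) s ξ))) :=
  ⟨gen, selfSimilar, contracting, bounded, levelTransitive, selfReplicating, domino_decidable,
    exists_hard, exists_undecidable⟩

end Pool.Agent.Results.MP_9fe7bd_lc.DominoVersusMSO
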